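import Pool.Agent.N563.LSP.Stm
import Pool.Agent.TH312.LS_ONE
set_option autoImplicit false

/-! # Pointwise and Lipschitz bounds of the two wave multipliers (helper907) -/

open MeasureTheory Set

namespace Pool.Agent.N907.LSP

open Pool.Agent.TH280.LS Pool.Agent.TH312.ONE
open Pool.Agent.N563.LSP (Fam S_PTS)

/-- a symbol of order `-s` times a bounded Lipschitz function -/
lemma fam_mul {s A B L : ℝ} {w b : ℝ → ℝ} (hA : 0 ≤ A) (_hB : 0 ≤ B) (hL : 0 ≤ L)
    (hw : SyK s A w) (hb : ∀ r, 0 < r → |b r| ≤ B)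
    (hb2 : ∀ r r', 0 < r → r ≤ r' → |b r - b r'| ≤ L * (r' - r)) :
    Fam s (A * (B + L)) (fun r => w r * b r) := by
  constructor
  · intro r hr
    have h1 := hw.1 r hr.le
    have q1 : 0 ≤ (1 + r) ^ (-s) := Real.rpow_nonneg (by linarith) _
    rw [abs_mul]
    calc |w r| * |b r| ≤ (A * (1 + r) ^ (-s)) * B :=
          mul_le_mul h1 (hb r hr) (abs_nonneg _) (by positivity)
      _ ≤ A * (B + L) * (1 + r) ^ (-s) := by
          have : 0 ≤ A * L * (1 + r) ^ (-s) := by positivity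
          nlinarith
  · intro r r' hr hrr
    have h1 := hw.1 r hr.le
    have h2 := hw.2 r r' hr.le hrr
    have h3 := hb r' (hr.trans_le hrr)
    have h4 := hb2 r r' hr hrr
    have q1 : 0 ≤ (1 + r) ^ (-s) := Real.rpow_nonneg (by linarith) _
    have q2 : (1 + r) ^ (-s - 1) ≤ (1 + r) ^ (-s) :=
      Real.rpow_le_rpow_of_exponent_le (by linarith) (by linarith)
    have hd : 0 ≤ r' - r := by linarith
    have d : w r * b r - w r' * b r' = w r * (b r - b r') + (w r - w r') * b r' := by ring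
    have h2' : |w r - w r'| ≤ A * ((1 + r) ^ (-s) * (r' - r)) :=
      h2.trans (mul_le_mul_of_nonneg_left (mul_le_mul_of_nonneg_right q2 hd) hA)
    calc |w r * b r - w r' * b r'| ≤ |w r| * |b r - b r'| + |w r - w r'| * |b r'| := by
          rw [d]
          refine (abs_add_le _ _).trans (le_of_eq ?_)
          rw [abs_mul, abs_mul]
      _ ≤ (A * (1 + r) ^ (-s)) * (L * (r' - r)) + (A * ((1 + r) ^ (-s) * (r' - r))) * B := by
          refine add_le_add ?_ ?_
          · exact mul_le_mul h1 h4 (abs_nonneg _) (by positivity)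
          · exact mul_le_mul h2' h3 (abs_nonneg _) (by positivity)
      _ = A * (B + L) * (1 + r) ^ (-s) * (r' - r) := by ring

/-- `|y cos y - sin y| ≤ y²` -/
lemma abs_ycos (y : ℝ) (hy : 0 ≤ y) : |y * Real.cos y - Real.sin y| ≤ y ^ 2 := by
  have hd : ∀ x : ℝ, HasDerivAt (fun x : ℝ => x * Real.cos x - Real.sin x) (-(x * Real.sin x)) x := by
    intro x
    exact (((hasDerivAt_id x).mul (Real.hasDerivAt_cos x)).sub (Real.hasDerivAt_sin x)).congr_deriv
      (by simp)
  have h := Convex.norm_image_sub_le_of_norm_hasDerivWithin_le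
    (f := fun x : ℝ => x * Real.cos x - Real.sin x) (f' := fun x => -(x * Real.sin x))
    (s := Icc 0 y) (x := 0) (y := y) (C := y)
    (fun x _ => (hd x).hasDerivWithinAt) (fun x hx => ?_) (convex_Icc _ _)
    (left_mem_Icc.2 hy) (right_mem_Icc.2 hy)
  · simp only [Real.norm_eq_abs, zero_mul, Real.sin_zero, sub_zero, abs_of_nonneg hy] at h
    calc |y * Real.cos y - Real.sin y| ≤ y * y := h
      _ = y ^ 2 := by ring
  · rw [Real.norm_eq_abs, abs_neg, abs_mul, abs_of_nonneg hx.1]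
    calc x * |Real.sin x| ≤ y * 1 := mul_le_mul hx.2 (Real.abs_sin_le_one x) (abs_nonneg _) hy
      _ = y := mul_one y

/-- the sine factor in the variable `x = 2 π r` -/
noncomputable def Bx (t x : ℝ) : ℝ := Real.sin (t * x) / x * Real.sqrt (1 + x ^ 2)

lemma sqrt_le (x : ℝ) (hx : 0 ≤ x) : Real.sqrt (1 + x ^ 2) ≤ 1 + x := by
  rw [Real.sqrt_le_left (by linarith)]
  nlinarith

lemma sin_div_le {t x : ℝ} (ht : 0 ≤ t) (hx : 0 < x) : |Real.sin (t * x) / x| ≤ t := by
  rw [abs_div, abs_of_pos hx, div_le_iff₀ hx]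
  refine Real.abs_sin_le_abs.trans (le_of_eq ?_)
  exact abs_of_nonneg (by positivity)

lemma Bx_bd {t x : ℝ} (ht : 0 ≤ t) (ht2 : t ≤ 2) (hx : 0 < x) : |Bx t x| ≤ 3 := by
  unfold Bx
  rw [abs_mul, abs_of_nonneg (Real.sqrt_nonneg _)]
  have h1 := sin_div_le ht hx
  have h2 : |Real.sin (t * x) / x| * x ≤ 1 := by
    rw [abs_div, abs_of_pos hx, div_mul_cancel₀ _ hx.ne']
    exact Real.abs_sin_le_one _
  have h3 := sqrt_le x hx.le
  calc |Real.sin (t * x) / x| * Real.sqrt (1 + x ^ 2) ≤ |Real.sin (t * x) / x| * (1 + x) :=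
        mul_le_mul_of_nonneg_left h3 (abs_nonneg _)
    _ = |Real.sin (t * x) / x| + |Real.sin (t * x) / x| * x := by ring
    _ ≤ 3 := by linarith

lemma Bx_deriv {t x : ℝ} (hx : 0 < x) : HasDerivAt (Bx t)
    ((t * x * Real.cos (t * x) - Real.sin (t * x)) / x ^ 2 * Real.sqrt (1 + x ^ 2) +
      Real.sin (t * x) / x * (x / Real.sqrt (1 + x ^ 2))) x := by
  have h1 : HasDerivAt (fun x : ℝ => Real.sin (t * x)) (Real.cos (t * x) * t) x := by
    have := (hasDerivAt_id x).const_mul t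
    simp only [id, mul_one] at this
    exact this.sin
  have h2 := h1.div (hasDerivAt_id x) hx.ne'
  have h3 : HasDerivAt (fun x : ℝ => 1 + x ^ 2) (2 * x) x :=
    ((hasDerivAt_pow 2 x).const_add 1).congr_deriv (by norm_num)
  have h4 := h3.sqrt (by positivity)
  have h5 := h2.mul h4
  have hs : Real.sqrt (1 + x ^ 2) ≠ 0 := (Real.sqrt_pos.2 (by positivity)).ne'
  refine h5.congr_deriv ?_
  simp only [id, Pi.div_apply]
  field_simp

lemma Bx_deriv_bd {t x : ℝ} (ht : 0 ≤ t) (ht2 : t ≤ 2) (hx : 0 < x) :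
    |(t * x * Real.cos (t * x) - Real.sin (t * x)) / x ^ 2 * Real.sqrt (1 + x ^ 2) +
      Real.sin (t * x) / x * (x / Real.sqrt (1 + x ^ 2))| ≤ 10 := by
  have hs : 0 < Real.sqrt (1 + x ^ 2) := Real.sqrt_pos.2 (by positivity)
  have hs1 := sqrt_le x hx.le
  have hs2 : x ≤ Real.sqrt (1 + x ^ 2) := Real.le_sqrt_of_sq_le (by linarith)
  have hy : 0 ≤ t * x := by positivity
  set H := |t * x * Real.cos (t * x) - Real.sin (t * x)| with hH
  have a1 : H ≤ (t * x) ^ 2 := abs_ycos _ hy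
  have a2 : H ≤ 2 * (t * x) := by
    have e1 : H ≤ |t * x * Real.cos (t * x)| + |Real.sin (t * x)| := abs_sub _ _
    have e2 : |t * x * Real.cos (t * x)| ≤ t * x := by
      rw [abs_mul, abs_of_nonneg hy]
      exact mul_le_of_le_one_right hy (Real.abs_cos_le_one _)
    have e3 : |Real.sin (t * x)| ≤ t * x := Real.abs_sin_le_abs.trans (abs_of_nonneg hy).le
    linarith
  have h0 : 0 ≤ H := abs_nonneg _
  have b1 : H / x ^ 2 ≤ 4 := by
    rw [div_le_iff₀ (by positivity)]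
    have : (t * x) ^ 2 ≤ 4 * x ^ 2 := by
      have : t ^ 2 ≤ 4 := by nlinarith
      have := mul_le_mul_of_nonneg_right this (sq_nonneg x)
      nlinarith
    linarith
  have b2 : H / x ^ 2 * x ≤ 4 := by
    rw [div_mul_eq_mul_div, div_le_iff₀ (by positivity)]
    have e1 := mul_le_mul_of_nonneg_right a2 hx.le
    have e2 : 2 * (t * x) * x ≤ 4 * x ^ 2 := by
      have := mul_le_mul_of_nonneg_right ht2 (sq_nonneg x)
      nlinarith
    linarith
  have c1 : |(t * x * Real.cos (t * x) - Real.sin (t * x)) / x ^ 2 * Real.sqrt (1 + x ^ 2)| ≤ 8 := by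
    rw [abs_mul, abs_div, abs_of_pos hs, abs_of_pos (by positivity : (0 : ℝ) < x ^ 2)]
    have e1 : H / x ^ 2 * Real.sqrt (1 + x ^ 2) ≤ H / x ^ 2 * (1 + x) :=
      mul_le_mul_of_nonneg_left hs1 (by positivity)
    have e2 : H / x ^ 2 * (1 + x) = H / x ^ 2 + H / x ^ 2 * x := by ring
    linarith
  have c2 : |Real.sin (t * x) / x * (x / Real.sqrt (1 + x ^ 2))| ≤ 2 := by
    rw [abs_mul]
    have e1 := sin_div_le ht hx
    have e2 : |x / Real.sqrt (1 + x ^ 2)| ≤ 1 := by
      rw [abs_div, abs_of_pos hx, abs_of_pos hs, div_le_one hs]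
      exact hs2
    calc |Real.sin (t * x) / x| * |x / Real.sqrt (1 + x ^ 2)| ≤ t * 1 :=
          mul_le_mul e1 e2 (abs_nonneg _) ht
      _ ≤ 2 := by linarith
  exact (abs_add_le _ _).trans (by linarith)

lemma Bx_lip {t x x' : ℝ} (ht : 0 ≤ t) (ht2 : t ≤ 2) (hx : 0 < x) (hxx : x ≤ x') :
    |Bx t x - Bx t x'| ≤ 10 * (x' - x) := by
  have h := Convex.norm_image_sub_le_of_norm_hasDerivWithin_le
    (f := Bx t) (f' := fun x => (t * x * Real.cos (t * x) - Real.sin (t * x)) / x ^ 2 *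
      Real.sqrt (1 + x ^ 2) + Real.sin (t * x) / x * (x / Real.sqrt (1 + x ^ 2)))
    (s := Icc x x') (x := x) (y := x') (C := 10)
    (fun z hz => (Bx_deriv (hx.trans_le hz.1)).hasDerivWithinAt)
    (fun z hz => by
      rw [Real.norm_eq_abs]
      exact Bx_deriv_bd ht ht2 (hx.trans_le hz.1)) (convex_Icc _ _)
    (left_mem_Icc.2 hxx) (right_mem_Icc.2 hxx)
  rw [Real.norm_eq_abs, Real.norm_eq_abs, abs_of_nonneg (by linarith : (0:ℝ) ≤ x' - x),
    abs_sub_comm] at h
  exact h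

lemma mc_eq (s τ t : ℝ) : mc s τ t = fun r => wa τ s r * Real.cos (2 * Real.pi * (t * r)) := by
  funext r
  unfold mc wa be
  ring

lemma ms_eq (s τ t : ℝ) : ms s τ t = fun r => wa τ s r * Bx t (2 * Real.pi * r) := by
  funext r
  have h1 : (1 + 4 * Real.pi ^ 2 * r ^ 2) ^ ((1 - s) / 2) =
      (1 + 4 * Real.pi ^ 2 * r ^ 2) ^ (-(s / 2)) * Real.sqrt (1 + (2 * Real.pi * r) ^ 2) := by
    have e : 1 + (2 * Real.pi * r) ^ 2 = 1 + 4 * Real.pi ^ 2 * r ^ 2 := by ring
    rw [e, Real.sqrt_eq_rpow, ← Real.rpow_add (by positivity)]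
    congr 1
    ring
  unfold ms wa be Bx
  rw [h1]
  have e2 : 2 * Real.pi * (t * r) = t * (2 * Real.pi * r) := by ring
  rw [e2]
  ring

theorem pts_ : S_PTS := by
  intro s hs
  obtain ⟨A, hA, h⟩ := syk_wa s hs
  have hpi := Real.pi_pos
  refine ⟨A * (3 + 20 * Real.pi), by positivity, fun τ t h0 h1 ht => ⟨?_, ?_⟩⟩
  · rw [mc_eq]
    refine fam_mul hA.le (by norm_num) (by positivity) (h τ h0 h1)
      (fun r _ => (Real.abs_cos_le_one _).trans (by norm_num)) fun r r' hr hrr => ?_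
    refine (Real.abs_cos_sub_cos_le _ _).trans ?_
    have e : 2 * Real.pi * (t * r) - 2 * Real.pi * (t * r') = -(2 * Real.pi * t * (r' - r)) := by ring
    have ht0 : 0 < t := by linarith [ht.1]
    have hd : 0 ≤ r' - r := by linarith
    rw [e, abs_neg, abs_of_nonneg (by positivity)]
    refine mul_le_mul_of_nonneg_right ?_ hd
    have := ht.2
    nlinarith
  · rw [ms_eq]
    refine fam_mul hA.le (by norm_num) (by positivity) (h τ h0 h1)
      (fun r hr => Bx_bd (by linarith [ht.1]) ht.2 (by positivity)) fun r r' hr hrr => ?_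
    have hx : 0 < 2 * Real.pi * r := by positivity
    have hxx : 2 * Real.pi * r ≤ 2 * Real.pi * r' := mul_le_mul_of_nonneg_left hrr (by positivity)
    refine (Bx_lip (by linarith [ht.1]) ht.2 hx hxx).trans (le_of_eq ?_)
    ring

end Pool.Agent.N907.LSP
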